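import Pool.Agent.MP_fcd29e_an.H11.CS

/-!
Charts of the ambient space at the points of `K`.
-/

set_option autoImplicit false

open Complex Set Filter Topology Metric Pool.Agent.MP_fcd29e_an.H81 Pool.Agent.MP_fcd29e_an.H11
open scoped ContDiff ComplexConjugate

namespace Pool.Agent.MP_fcd29e_an.H53

namespace CCH

theorem cone_fderiv {P X : Type} [NormedAddCommGroup P] [NormedSpace ℂ P] [NormedAddCommGroup X]
    [NormedSpace ℂ X] {Ψ : P → X} {p : P} (h : DifferentiableAt ℂ Ψ p) (a : ℂ) (v : P) :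
    fderiv ℂ (fun q : ℂ × P => q.1 • Ψ q.2) (1, p) (a, v) = a • Ψ p + fderiv ℂ Ψ p v := by
  have h1 : HasFDerivAt (fun q : ℂ × P => Ψ q.2)
      ((fderiv ℂ Ψ p).comp (ContinuousLinearMap.snd ℂ ℂ P)) (1, p) :=
    HasFDerivAt.comp ((1, p) : ℂ × P) h.hasFDerivAt hasFDerivAt_snd
  have h2 := (hasFDerivAt_fst (𝕜 := ℂ) (p := ((1, p) : ℂ × P))).smul h1
  have h3 := h2.fderiv
  change fderiv ℂ (fun q : ℂ × P => q.1 • Ψ q.2) (1, p) = _ at h3
  rw [h3]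
  simp [add_comm]

/-- The inverse function theorem for a cone. -/
theorem cone_inv {P X : Type} [NormedAddCommGroup P] [NormedSpace ℂ P] [CompleteSpace P]
    [NormedAddCommGroup X] [NormedSpace ℂ X] [CompleteSpace X] {Ψ : P → X} {p₀ : P}
    (h : AnalyticAt ℂ Ψ p₀)
    (hi : ∀ (a : ℂ) (v : P), a • Ψ p₀ + fderiv ℂ Ψ p₀ v = 0 → a = 0 ∧ v = 0)
    (hs : ∀ L, ∃ (a : ℂ) (v : P), L = a • Ψ p₀ + fderiv ℂ Ψ p₀ v) :
    (∃ inv : X → ℂ × P, AnalyticAt ℂ inv (Ψ p₀) ∧ inv (Ψ p₀) = (1, p₀) ∧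
      ∀ᶠ Z in 𝓝 (Ψ p₀), (inv Z).1 • Ψ (inv Z).2 = Z) ∧
    ∀ᶠ p in 𝓝 p₀, ∀ L, ∃ (a : ℂ) (v : P), L = a • Ψ p + fderiv ℂ Ψ p v := by
  set H : ℂ × P → X := fun q => q.1 • Ψ q.2 with hH
  have hA : AnalyticAt ℂ H (1, p₀) :=
    analyticAt_fst.smul (AnalyticAt.comp (g := Ψ) (f := Prod.snd) h analyticAt_snd)
  have hker : (fderiv ℂ H (1, p₀)).ker = ⊥ := by
    rw [LinearMap.ker_eq_bot']
    rintro ⟨a, v⟩ hv
    have h1 := cone_fderiv h.differentiableAt a v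
    obtain ⟨rfl, rfl⟩ := hi a v (h1.symm.trans hv)
    rfl
  have hran : (fderiv ℂ H (1, p₀)).range = ⊤ := by
    rw [LinearMap.range_eq_top]
    intro L
    obtain ⟨a, v, rfl⟩ := hs L
    exact ⟨(a, v), cone_fderiv h.differentiableAt a v⟩
  set e := ContinuousLinearEquiv.ofBijective (fderiv ℂ H (1, p₀)) hker hran with he
  have hd : HasFDerivAt H (e : ℂ × P →L[ℂ] X) (1, p₀) := hA.differentiableAt.hasFDerivAt
  have hc : ContDiffAt ℂ ω H (1, p₀) := hA.contDiffAt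
  have h0 : H (1, p₀) = Ψ p₀ := one_smul _ _
  have hw : (ω : WithTop ℕ∞) ≠ 0 := by simp
  refine ⟨⟨hc.localInverse hd hw, ?_, ?_, ?_⟩, ?_⟩
  · rw [← h0]
    exact (hc.to_localInverse hd hw).analyticAt
  · rw [← h0]
    exact hc.localInverse_apply_image hd hw
  · rw [← h0]
    exact (hc.hasStrictFDerivAt' hd hw).eventually_right_inverse
  · have h1 : ContinuousAt (fun p : P => fderiv ℂ H (1, p)) p₀ :=
      ContinuousAt.comp (g := fderiv ℂ H) (f := fun p : P => ((1, p) : ℂ × P))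
        hA.fderiv.continuousAt (by fun_prop)
    filter_upwards [h1.eventually e.nhds, h.eventually_analyticAt] with p hp hp' L
    obtain ⟨e', he'⟩ := hp
    obtain ⟨⟨a, v⟩, hv⟩ := e'.surjective L
    refine ⟨a, v, ?_⟩
    rw [← cone_fderiv hp'.differentiableAt a v, ← hv]
    exact congrArg (fun f : ℂ × P →L[ℂ] X => f (a, v)) he'

/-- Transversality to the quadrics is an open condition. -/
theorem ev_zero {N : ℕ} (S : Set (E N)) (W : Submodule ℂ (E N)) (Z : E N)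
    (h : ∀ w : W, (∀ Q, Quad S Q → Q Z w + Q w Z = 0) → w = 0) :
    ∀ᶠ q : E N × E N in 𝓝 (Z, Z), ∀ w : W, (∀ Q, Quad S Q → Q q.1 w + Q w q.2 = 0) → w = 0 := by
  have h1 : ∀ᶠ q : E N × E N in 𝓝 (Z, Z), ∀ w ∈ sphere (0 : W) 1,
      ∃ Q, Quad S Q ∧ Q q.1 w + Q w q.2 ≠ 0 := by
    refine (isCompact_sphere (0 : W) 1).eventually_forall_of_forall_eventually fun w hw => ?_
    have h2 : ¬ ∀ Q, Quad S Q → Q Z w + Q w Z = 0 := fun h3 => by
      rw [h w h3] at hw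
      simp at hw
    push Not at h2
    obtain ⟨Q, hQ, h3⟩ := h2
    have h4 : ContinuousAt (fun y : (E N × E N) × W => Q y.1.1 y.2 + Q y.2 y.1.2) ((Z, Z), w) := by
      fun_prop
    filter_upwards [h4.eventually_ne h3] with y hy
    exact ⟨Q, hQ, hy⟩
  filter_upwards [h1] with q hq w hw
  by_contra h0
  have hn : ‖w‖ ≠ 0 := norm_ne_zero_iff.2 h0
  obtain ⟨Q, hQ, h2⟩ := hq (((‖w‖ : ℂ))⁻¹ • w) (by
    rw [mem_sphere_zero_iff_norm, norm_smul, norm_inv, Complex.norm_real, norm_norm,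
      inv_mul_cancel₀ hn])
  refine h2 ?_
  rw [Submodule.coe_smul, map_smul, map_smul, ContinuousLinearMap.smul_apply, ← smul_add, hw Q hQ,
    smul_zero]

end CCH

open CCH in
theorem sch (hGR : SGR) (hQP : SQP) (_hKC : SKC) : SCH := by
  intro ι _ N J δ _ d hd i z₀ hz x hx
  obtain ⟨q1, -, q2, -, q3, q4, -, q5, q6⟩ := hQP ι x hx
  have hx0 : x ≠ 0 := (hGR.cn ι x hx).1
  let T : (ℂ × ℂ × Uc x) →ₗ[ℂ] E N :=
    { toFun := fun q => q.1 • d.Φ i z₀ x + q.2.1 • deriv (d.Φ i) z₀ x + d.Φ i z₀ q.2.2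
      map_add' := fun a b => by
        simp only [Prod.fst_add, Prod.snd_add, add_smul, Submodule.coe_add, map_add]
        abel
      map_smul' := fun c a => by
        simp only [Prod.smul_fst, Prod.smul_snd, smul_eq_mul, mul_smul, Submodule.coe_smul,
          map_smul, RingHom.id_apply, smul_add] }
  have hT : ∀ (a z : ℂ) (u : Uc x),
      T (a, z, u) = a • d.Φ i z₀ x + z • deriv (d.Φ i) z₀ x + d.Φ i z₀ u := fun _ _ _ => rfl
  have hTi : ∀ (a z : ℂ) (u : Uc x), T (a, z, u) = 0 → a = 0 ∧ z = 0 ∧ u = 0 := fun a z u h => by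
    rw [hT] at h
    have hz0 : z = 0 := by
      by_contra hne
      refine hd.imm i z₀ hz x hx (-(z⁻¹ • (a • x + u))) ?_
      rw [map_neg, map_smul, map_add, map_smul, eq_neg_iff_add_eq_zero,
        ← inv_smul_smul₀ hne (deriv (d.Φ i) z₀ x), ← smul_add, ← add_assoc,
        add_comm (z • _), h, smul_zero]
    rw [hz0, zero_smul, add_zero, ← map_smul, ← map_add] at h
    have h2 := q6 a u u.2 (hd.inj i z₀ hz (h.trans (map_zero _).symm))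
    exact ⟨h2.1, hz0, Subtype.ext h2.2⟩
  obtain ⟨W, hW⟩ := Submodule.exists_isCompl (LinearMap.range T)
  have hTW : ∀ (q : ℂ × ℂ × Uc x) (w : W), T q + w = 0 → T q = 0 ∧ w = 0 := fun q w h => by
    have h1 : (w : E N) = 0 := by
      refine (Submodule.disjoint_def.1 hW.disjoint) _ ⟨-q, ?_⟩ w.2
      rw [map_neg, neg_eq_iff_add_eq_zero, h]
    rw [h1, add_zero] at h
    exact ⟨h, Subtype.ext h1⟩
  have h0 : d.Ψ i x W (z₀, 0, 0) = d.Φ i z₀ x := by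
    simp only [Data.Ψ, Submodule.coe_zero, q2, add_zero]
  let u₁ : ℂ × Uc x × W →L[ℂ] V ι := (Uc x).subtypeL.comp
    ((ContinuousLinearMap.fst ℂ (Uc x) W).comp (ContinuousLinearMap.snd ℂ ℂ (Uc x × W)))
  let w₁ : ℂ × Uc x × W →L[ℂ] E N := W.subtypeL.comp
    ((ContinuousLinearMap.snd ℂ (Uc x) W).comp (ContinuousLinearMap.snd ℂ ℂ (Uc x × W)))
  have hu0 : u₁ (z₀, 0, 0) = 0 := rfl
  have a1 : AnalyticAt ℂ (fun p : ℂ × Uc x × W => d.Φ i p.1) (z₀, 0, 0) :=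
    AnalyticAt.comp (g := d.Φ i) (f := Prod.fst) (hd.hΦ i z₀ hz) analyticAt_fst
  have a2 : AnalyticAt ℂ (fun p : ℂ × Uc x × W => xp x (u₁ p)) (z₀, 0, 0) :=
    AnalyticAt.comp (g := xp x) (f := u₁) (q3 _) (u₁.analyticAt _)
  have a3 : AnalyticAt ℂ (fun p : ℂ × Uc x × W => d.Φ i p.1 (xp x (u₁ p))) (z₀, 0, 0) :=
    ((a1.contDiffAt (n := ω)).clm_apply a2.contDiffAt).analyticAt
  have hA : AnalyticAt ℂ (d.Ψ i x W) (z₀, 0, 0) := a3.add (w₁.analyticAt _)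
  have hD : ∀ (z : ℂ) (u : Uc x) (w : W), fderiv ℂ (d.Ψ i x W) (z₀, 0, 0) (z, u, w) =
      z • deriv (d.Φ i) z₀ x + d.Φ i z₀ u + w := fun z u w => by
    have d1 : HasFDerivAt (fun p : ℂ × Uc x × W => d.Φ i p.1)
        ((ContinuousLinearMap.toSpanSingleton ℂ (deriv (d.Φ i) z₀)).comp
          (ContinuousLinearMap.fst ℂ ℂ (Uc x × W))) (z₀, 0, 0) :=
      HasFDerivAt.comp ((z₀, 0, 0) : ℂ × Uc x × W) (g := d.Φ i) (f := Prod.fst)
        (hd.hΦ i z₀ hz).differentiableAt.hasDerivAt.hasFDerivAt hasFDerivAt_fst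
    have d2 : HasFDerivAt (fun p : ℂ × Uc x × W => xp x (u₁ p))
        ((ContinuousLinearMap.id ℂ _).comp u₁) (z₀, 0, 0) := by
      refine HasFDerivAt.comp ((z₀, 0, 0) : ℂ × Uc x × W) (g := xp x) (f := u₁) ?_ u₁.hasFDerivAt
      rw [hu0, ← q4]
      exact (q3 0).differentiableAt.hasFDerivAt
    have d3 := ((d1.clm_apply d2).add w₁.hasFDerivAt).fderiv
    change fderiv ℂ (d.Ψ i x W) (z₀, 0, 0) = _ at d3
    rw [d3]
    simp [u₁, w₁, q2, add_comm]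
  have hlast : ∀ w : W, (∀ Q, Quad d.S Q → Q (d.Φ i z₀ x) w + Q w (d.Φ i z₀ x) = 0) → w = 0 :=
    fun w hw => by
      obtain ⟨a, y, hy, h1⟩ := hd.ker i z₀ hz x hx w hw
      obtain ⟨b, u, hu, rfl⟩ := q5 y hy
      refine (hTW (-(b, a, ⟨u, hu⟩)) w ?_).2
      rw [map_neg, hT, h1, map_add, map_smul]
      abel
  obtain ⟨c1, c2⟩ := cone_inv hA (fun a v h => by
      obtain ⟨z, u, w⟩ := v
      rw [h0, hD, ← add_assoc, ← add_assoc, ← hT] at h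
      obtain ⟨h1, rfl⟩ := hTW _ _ h
      obtain ⟨rfl, rfl, rfl⟩ := hTi _ _ _ h1
      exact ⟨rfl, rfl⟩)
    (fun L => by
      obtain ⟨_, ⟨⟨a, z, u⟩, rfl⟩, w, hw, rfl⟩ :=
        Submodule.mem_sup.1 (hW.sup_eq_top ▸ Submodule.mem_top : L ∈ LinearMap.range T ⊔ W)
      refine ⟨a, (z, u, ⟨w, hw⟩), ?_⟩
      rw [h0, hD, hT, ← add_assoc, ← add_assoc])
  rw [h0] at c1
  refine ⟨W, h0, hA, c1, ?_, hlast⟩
  have e1 : ∀ᶠ p in 𝓝 ((z₀, 0, 0) : ℂ × Uc x × W), p.1 ∈ d.D i :=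
    continuousAt_fst.eventually ((hd.op i).mem_nhds hz)
  have e2 : ∀ᶠ p in 𝓝 ((z₀, 0, 0) : ℂ × Uc x × W), d.Ψ i x W p ≠ 0 :=
    hA.continuousAt.eventually_ne (by
      rw [h0]
      exact fun h => hx0 (hd.inj i z₀ hz (h.trans (map_zero _).symm)))
  have e3 : Tendsto (fun p : ℂ × Uc x × W => (d.Φ i p.1 (xp x (u₁ p)), d.Ψ i x W p))
      (𝓝 (z₀, 0, 0)) (𝓝 (d.Φ i z₀ x, d.Φ i z₀ x)) := by
    have h1 := (a3.continuousAt.prodMk hA.continuousAt).tendsto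
    simpa only [h0, hu0, q2] using h1
  filter_upwards [e1, e2, c2, e3.eventually (ev_zero d.S W _ hlast)] with p p1 p2 p3 p4
  obtain ⟨z, u, w⟩ := p
  obtain ⟨r1, r2, -, r3, r4, r5⟩ := q1 u u.2
  have s0 : d.Φ i z (xp x u) ∈ d.S := ⟨i, z, p1, _, r2, r1, rfl⟩
  have s1 : d.Ψ i x W (z, u, w) ∈ d.S → w = 0 := fun h => p4 w fun Q hQ => by
    have h1 := hQ _ h
    have h2 := hQ _ s0
    change Q (d.Φ i z (xp x u) + w) (d.Φ i z (xp x u) + w) = 0 at h1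
    change Q (d.Φ i z (xp x u)) w + Q w (d.Φ i z (xp x u) + w) = 0
    rw [map_add Q, ContinuousLinearMap.add_apply, map_add (Q (d.Φ i z (xp x u))), h2,
      zero_add] at h1
    exact h1
  have s2 : w = 0 → d.Ψ i x W (z, u, w) = d.Φ i z (xp x u) := fun h => by
    simp only [Data.Ψ, h, Submodule.coe_zero, add_zero]
  have s3 : ∀ y ∈ cone ι, ∀ c : ℂ, B (c • y) (c • y) = 0 := fun y hy c => by
    rw [(hGR.bil ι y y (c • y) c).2.2.2.1, (hGR.bil ι y (c • y) y c).1,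
      (hGR.bil ι y y y c).2.2.2.1, hy.2.1, mul_zero, mul_zero]
  refine ⟨p1, p2, p3, ⟨s1, fun h => by rw [s2 h]; exact s0⟩, ?_, ?_⟩
  · rintro ⟨j, z', hz', y, hy, c, hc, h⟩
    rw [← map_smul] at h
    have hw : w = 0 := s1 ⟨j, z', hz', c • y, smul_ne_zero hc (hGR.cn ι y hy).1, s3 y hy c, h⟩
    rw [s2 hw] at h
    obtain ⟨c', G, hc', hG, h1, -⟩ := hd.compat i j z p1 z' hz' _ _ r2 r1 (s3 y hy c) h
    obtain ⟨G', hG', -, h2⟩ := (hGR.op ι).2.2.1 G hG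
    rw [h1, ← map_smul, ← map_smul] at h
    have h3 := congrArg G' (hd.inj j z' hz' h)
    rw [← ContinuousLinearMap.mul_apply, h2, ContinuousLinearMap.one_apply, map_smul] at h3
    refine ⟨hw, r5 (c⁻¹ * c') ?_⟩
    rw [mul_smul, h3, inv_smul_smul₀ hc]
    exact hG'.fut y hy
  · rintro ⟨hw, hJ⟩
    rw [r4 hJ] at r3
    exact ⟨i, z, p1, _, r3, 1, one_ne_zero, by rw [s2 hw, one_smul]⟩

end Pool.Agent.MP_fcd29e_an.H53
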